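import Pool.Agent.Helper14.W5.StD

/-!
# W5 MODULE Lw1: elementary lowering facts
-/

set_option autoImplicit false

namespace Pool.Agent.Helper81.W5

open Pool.Agent.Helper14.W5

/-! ### Identities in a ring -/

private theorem ring1 {R : Type*} [Ring R] (A B X Y : R) :
    B * A - 1 - X + Y = (B - 1 + Y) * A + (1 - Y) * (A - 1 - X) - Y * X := by
  noncomm_ring

private theorem ring2 {R : Type*} [Ring R] (P A B D X Y : R) :
    P - 1 - X + Y = (P - 1 * B * D * A) + (B * (D - 1) * A + (B * A - 1 - X + Y)) := by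
  noncomm_ring

private theorem ring3 {R : Type*} [Ring R] (A O X : R) :
    A * (1 + O) - 1 - (X + O) = (A - 1 - X) * (1 + O) + X * O := by
  noncomm_ring

private theorem ring4 {R : Type*} [Ring R] (A B D : R) :
    B * D * A - 1 = (B - 1) * (D * A) + ((D - 1) * A + (A - 1)) := by
  noncomm_ring

/-! ### Arithmetic -/

private theorem ex_b (a b : ℤ) (h : ¬ 5 ∣ a) : ∃ β : ℕ, (25 : ℤ) ∣ b - β * a := by
  have h5 : Prime (5 : ℤ) := Nat.prime_iff_prime_int.mp (by norm_num)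
  have h1 : IsCoprime (5 : ℤ) a := (h5.irreducible.coprime_iff_not_dvd).2 h
  have h2 : IsCoprime ((5 : ℤ) ^ 2) a := h1.pow_left
  obtain ⟨u, v, huv⟩ := h2
  have h0 : 0 ≤ (b * v) % 25 := Int.emod_nonneg _ (by norm_num)
  refine ⟨((b * v) % 25).toNat, ?_⟩
  rw [Int.toNat_of_nonneg h0]
  have h4 : (b * v) % 25 = b * v - 25 * (b * v / 25) := by
    have := Int.emod_add_mul_ediv (b * v) 25
    linarith
  rw [h4]
  refine ⟨b * u + (b * v / 25) * a, ?_⟩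
  linear_combination b * (-huv)

private theorem ex_m (e h d : ℤ) (he : ¬ 5 ∣ e) (hd : 5 ∣ d - e) :
    ∃ m : ℕ, (25 : ℤ) ∣ d - 5 * h - 6 ^ m * e := by
  obtain ⟨t, ht⟩ := hd
  have key : (25 : ℤ) ∣ d - 5 * h - 1 * e ∨ (25 : ℤ) ∣ d - 5 * h - 6 * e ∨
      (25 : ℤ) ∣ d - 5 * h - 36 * e ∨ (25 : ℤ) ∣ d - 5 * h - 216 * e ∨
      (25 : ℤ) ∣ d - 5 * h - 1296 * e := by
    obtain ⟨g, hg⟩ : ∃ g : ℤ, g = t - h := ⟨_, rfl⟩
    have he5 : e % 5 = 1 ∨ e % 5 = 2 ∨ e % 5 = 3 ∨ e % 5 = 4 := by omega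
    have hg5 : g % 5 = 0 ∨ g % 5 = 1 ∨ g % 5 = 2 ∨ g % 5 = 3 ∨ g % 5 = 4 := by omega
    rcases he5 with h1 | h1 | h1 | h1 <;> rcases hg5 with h2 | h2 | h2 | h2 | h2 <;> omega
  rcases key with k | k | k | k | k
  · exact ⟨0, by simpa using k⟩
  · exact ⟨1, by simpa using k⟩
  · exact ⟨2, by norm_num; exact k⟩
  · exact ⟨3, by norm_num; exact k⟩
  · exact ⟨4, by norm_num; exact k⟩

private theorem ex_w (a d : ℤ) (ha : ¬ 5 ∣ a) (hd : ¬ 5 ∣ d) :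
    ∃ w : Fin 4, (5 : ℤ) ∣ d - om4 w * a ∧ ¬ 5 ∣ om4 w * a := by
  have key : (5 : ℤ) ∣ d - 1 * a ∨ (5 : ℤ) ∣ d - 7 * a ∨ (5 : ℤ) ∣ d - (-1) * a ∨
      (5 : ℤ) ∣ d - (-7) * a := by
    have ha5 : a % 5 = 1 ∨ a % 5 = 2 ∨ a % 5 = 3 ∨ a % 5 = 4 := by omega
    have hd5 : d % 5 = 1 ∨ d % 5 = 2 ∨ d % 5 = 3 ∨ d % 5 = 4 := by omega
    rcases ha5 with h1 | h1 | h1 | h1 <;> rcases hd5 with h2 | h2 | h2 | h2 <;> omega
  rcases key with k | k | k | k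
  · exact ⟨0, k, by change ¬ (5 : ℤ) ∣ 1 * a; omega⟩
  · exact ⟨1, k, by change ¬ (5 : ℤ) ∣ 7 * a; omega⟩
  · exact ⟨2, k, by change ¬ (5 : ℤ) ∣ (-1) * a; omega⟩
  · exact ⟨3, k, by change ¬ (5 : ℤ) ∣ (-7) * a; omega⟩

private theorem ex_nf (a b c d : ℤ) (ha : ¬ 5 ∣ a) (hd : ¬ 5 ∣ d) :
    ∃ (w : Fin 4) (β γ m : ℕ), (25 : ℤ) ∣ b - β * a ∧ (25 : ℤ) ∣ c - γ * om4 w * a ∧
      (25 : ℤ) ∣ d - (5 * γ * β + 6 ^ m) * om4 w * a := by
  obtain ⟨w, hw, he⟩ := ex_w a d ha hd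
  obtain ⟨β, hβ⟩ := ex_b a b ha
  obtain ⟨γ, hγ⟩ := ex_b (om4 w * a) c he
  obtain ⟨m, hm⟩ := ex_m (om4 w * a) (γ * β * (om4 w * a)) d he hw
  refine ⟨w, β, γ, m, hβ, ?_, ?_⟩
  · rw [mul_assoc]; exact hγ
  · have e : d - (5 * (γ : ℤ) * β + 6 ^ m) * om4 w * a =
        d - 5 * ((γ : ℤ) * β * (om4 w * a)) - 6 ^ m * (om4 w * a) := by ring
    rw [e]
    exact hm

section

variable {r s : ℕ}

private theorem neg1_smul (O : Module.End (ZMod 5) (Fn5 (5 ^ r) (5 ^ s))) :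
    (-1 : ZMod 5) • O = -O := by
  apply LinearMap.ext
  intro F
  funext x y
  change (-1 : ZMod 5) * (O F x y) = -(O F x y)
  ring

private theorem lw_neg (hL : S5Low0) {O : Module.End (ZMod 5) (Fn5 (5 ^ r) (5 ^ s))} {k : ℤ}
    (h : Lw O k) : Lw (-O) k := by
  have := (hL r s).2.2.1 O (-1) k h
  rwa [neg1_smul] at this

private theorem lw_add (hL : S5Low0) {O O' : Module.End (ZMod 5) (Fn5 (5 ^ r) (5 ^ s))} {k : ℤ}
    (h : Lw O k) (h' : Lw O' k) : Lw (O + O') k := (hL r s).2.1 O O' k h h'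

private theorem lw_sub (hL : S5Low0) {O O' : Module.End (ZMod 5) (Fn5 (5 ^ r) (5 ^ s))} {k : ℤ}
    (h : Lw O k) (h' : Lw O' k) : Lw (O - O') k := by
  rw [sub_eq_add_neg]
  exact lw_add hL h (lw_neg hL h')

private theorem lw_mul (hL : S5Low0) {O O' : Module.End (ZMod 5) (Fn5 (5 ^ r) (5 ^ s))}
    {k k' l : ℤ} (h : Lw O k) (h' : Lw O' k') (hl : k + k' = l) : Lw (O * O') l := by
  subst hl
  exact (hL r s).1 O O' k k' h h'

private theorem lw_mono (hL : S5Low0) {O : Module.End (ZMod 5) (Fn5 (5 ^ r) (5 ^ s))}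
    {k k' : ℤ} (h : Lw O k) (hk : k' ≤ k) : Lw O k' := (hL r s).2.2.2.1 O k k' hk h

private theorem lw_smul (hL : S5Low0) {O : Module.End (ZMod 5) (Fn5 (5 ^ r) (5 ^ s))} {k : ℤ}
    (c : ZMod 5) (h : Lw O k) : Lw (c • O) k := (hL r s).2.2.1 O c k h

private theorem lw_one (hL : S5Low0) :
    Lw (1 : Module.End (ZMod 5) (Fn5 (5 ^ r) (5 ^ s))) 0 := (hL r s).2.2.2.2.2.1

private theorem lw_dX (hL : S5Low0) :
    Lw (dX : Module.End (ZMod 5) (Fn5 (5 ^ r) (5 ^ s))) 1 := (hL r s).2.2.2.2.2.2.1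

private theorem lw_dY (hL : S5Low0) :
    Lw (dY : Module.End (ZMod 5) (Fn5 (5 ^ r) (5 ^ s))) 1 := (hL r s).2.2.2.2.2.2.2.1

private theorem lw_pow (hL : S5Low0) {O : Module.End (ZMod 5) (Fn5 (5 ^ r) (5 ^ s))}
    (h : Lw O 0) (n : ℕ) : Lw (O ^ n) 0 := by
  induction n with
  | zero => rw [pow_zero]; exact lw_one hL
  | succ n ih => rw [pow_succ]; exact lw_mul hL ih h (by norm_num)

private theorem lw_one_add (hL : S5Low0) {O : Module.End (ZMod 5) (Fn5 (5 ^ r) (5 ^ s))}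
    (h : Lw O 1) : Lw (1 + O) 0 := lw_add hL (lw_one hL) (lw_mono hL h (by norm_num))

/-- `(1 + O)^n = 1 + n O` up to lowering `2`. -/
private theorem lw_binom (hL : S5Low0) {O : Module.End (ZMod 5) (Fn5 (5 ^ r) (5 ^ s))}
    (h : Lw O 1) (n : ℕ) : Lw ((1 + O) ^ n - 1 - (n : ZMod 5) • O) 2 := by
  induction n with
  | zero =>
    have e : (1 + O) ^ 0 - 1 - ((0 : ℕ) : ZMod 5) • O = 0 := by
      rw [pow_zero, Nat.cast_zero, zero_smul, sub_self, sub_zero]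
    rw [e]
    have := lw_smul hL (0 : ZMod 5) (lw_mul hL h h (by norm_num : (1 : ℤ) + 1 = 2))
    rwa [zero_smul] at this
  | succ n ih =>
    have e : ((n + 1 : ℕ) : ZMod 5) • O = (n : ZMod 5) • O + O := by
      rw [Nat.cast_add, Nat.cast_one, add_smul, one_smul]
    rw [pow_succ, e, ring3]
    exact lw_add hL (lw_mul hL ih (lw_one_add hL h) (by norm_num))
      (lw_mul hL (lw_smul hL _ h) h (by norm_num))

/-- Powers of an operator which is `1` up to lowering `k ≥ 0`. -/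
private theorem lw_powk (hL : S5Low0) {O : Module.End (ZMod 5) (Fn5 (5 ^ r) (5 ^ s))} {k : ℤ}
    (hk : 0 ≤ k) (h : Lw (O - 1) k) (n : ℕ) : Lw (O ^ n - 1) k ∧ Lw (O ^ n) 0 := by
  have h0 : Lw O 0 := by
    have := lw_add hL (lw_mono hL h hk) (lw_one hL)
    rwa [sub_add_cancel] at this
  refine ⟨?_, lw_pow hL h0 n⟩
  induction n with
  | zero =>
    rw [pow_zero, sub_self]
    have := lw_smul hL (0 : ZMod 5) h
    rwa [zero_smul] at this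
  | succ n ih =>
    have e : O ^ (n + 1) - 1 = (O ^ n - 1) * O + (O - 1) := by
      rw [pow_succ, sub_mul, one_mul, sub_add_sub_cancel]
    rw [e]
    exact lw_add hL (lw_mul hL ih h0 (by norm_num)) h

private theorem oW_zero : (oW 0 : Module.End (ZMod 5) (Fn5 (5 ^ r) (5 ^ s))) = 1 := by
  apply LinearMap.ext
  intro F
  funext x y
  change F ((((0 : ℤ) : ZMod (5 ^ r)) + ((1 : ℤ) : ZMod (5 ^ r)) * x) *
    (((1 : ℤ) : ZMod (5 ^ r)) + 5 * ((0 : ℤ) : ZMod (5 ^ r)) * x)⁻¹)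
    ((((0 : ℤ) : ZMod (5 ^ s)) + ((1 : ℤ) : ZMod (5 ^ s)) * y) *
    (((1 : ℤ) : ZMod (5 ^ s)) + 5 * ((0 : ℤ) : ZMod (5 ^ s)) * y)⁻¹) = F x y
  have e1 : (((1 : ℤ) : ZMod (5 ^ r)) + 5 * ((0 : ℤ) : ZMod (5 ^ r)) * x)⁻¹ = 1 := by
    rw [Int.cast_zero, mul_zero, zero_mul, add_zero, Int.cast_one, ZMod.inv_one]
  have e2 : (((1 : ℤ) : ZMod (5 ^ s)) + 5 * ((0 : ℤ) : ZMod (5 ^ s)) * y)⁻¹ = 1 := by
    rw [Int.cast_zero, mul_zero, zero_mul, add_zero, Int.cast_one, ZMod.inv_one]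
  rw [e1, e2]
  congr 1
  · rw [Int.cast_zero, Int.cast_one]; ring
  · rw [Int.cast_zero, Int.cast_one]; ring

private theorem wd_mono (hL : S5Low0) {d d' : ℤ} (h : d ≤ d') {F : Fn5 (5 ^ r) (5 ^ s)}
    (hF : F ∈ Wd5 d) : F ∈ Wd5 d' := (hL r s).2.2.2.2.1 d d' h hF

/-- An operator with `w = 2` agrees with `oW 2` up to lowering `1`. -/
private theorem two (hL : S5Low0) (hn : S5Nfa) (hf : S5Nf) (a b c d : ℤ) (β γ m : ℕ)
    (ha : ¬ 5 ∣ a) (hd : ¬ 5 ∣ d) (h1 : 25 ∣ b - β * a) (h2 : 25 ∣ c - γ * om4 2 * a)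
    (h3 : 25 ∣ d - (5 * γ * β + 6 ^ m) * om4 2 * a) :
    Lw (op5 a b c d - oW 2 : Module.End (ZMod 5) (Fn5 (5 ^ r) (5 ^ s))) 1 := by
  obtain ⟨nW, -, -, nD, -, -, nA, nB⟩ := hn r s
  have h7 := hf r s a b c d 2 β γ m ha hd h1 h2 h3
  obtain ⟨bB, -⟩ := lw_powk hL (by norm_num) nB γ
  obtain ⟨bD, cD⟩ := lw_powk hL (by norm_num) nD m
  obtain ⟨bA, cA⟩ := lw_powk hL (by norm_num) nA β
  have hR : Lw (oB ^ γ * oD ^ m * oA ^ β - 1 : Module.End (ZMod 5) (Fn5 (5 ^ r) (5 ^ s))) 1 := by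
    rw [ring4]
    refine lw_add hL (lw_mul hL bB (lw_mul hL cD cA (by norm_num : (0 : ℤ) + 0 = 0))
      (by norm_num)) (lw_add hL ?_ bA)
    exact lw_mono hL (lw_mul hL bD cA (by norm_num : (4 : ℤ) + 0 = 4)) (by norm_num)
  have e : (op5 a b c d - oW 2 : Module.End (ZMod 5) (Fn5 (5 ^ r) (5 ^ s))) =
      (op5 a b c d - oW 2 * oB ^ γ * oD ^ m * oA ^ β) +
        oW 2 * (oB ^ γ * oD ^ m * oA ^ β - 1) := by
    rw [mul_sub, mul_one]
    simp only [mul_assoc]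
    abel
  rw [e]
  exact lw_add hL (lw_mono hL h7 (by norm_num)) (lw_mul hL (nW 2) hR (by norm_num))

private theorem even_step {a b c d' : ℤ} (hn : S5Nfa)
    (h : Lw (op5 a b c d' - oW 2 : Module.End (ZMod 5) (Fn5 (5 ^ r) (5 ^ s))) 1) (d : ℤ)
    (F : Fn5 (5 ^ r) (5 ^ s)) (hF : F ∈ Wd5 d) (hd : Even d) :
    op5 a b c d' F - F ∈ Wd5 (d - 1) := by
  have h1 := h d F hF
  have h2 := (hn r s).2.1 d F hF hd
  have h3 := Submodule.add_mem _ h1 h2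
  rw [LinearMap.sub_apply, sub_add_sub_cancel] at h3
  exact h3

private theorem odd_step {a b c d' : ℤ} (hn : S5Nfa)
    (h : Lw (op5 a b c d' - oW 2 : Module.End (ZMod 5) (Fn5 (5 ^ r) (5 ^ s))) 1) (d : ℤ)
    (F : Fn5 (5 ^ r) (5 ^ s)) (hF : F ∈ Wd5 d) (hd : Odd d) :
    op5 a b c d' F + F ∈ Wd5 (d - 1) := by
  have h1 := h d F hF
  have h2 := (hn r s).2.2.1 d F hF hd
  have h3 := Submodule.add_mem _ h1 h2
  rw [LinearMap.sub_apply, ← add_assoc, sub_add_cancel] at h3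
  exact h3

end

theorem hLw1 (hl : S5Low0) (hn : S5Nfa) (hf : S5Nf) : S5Lw1 := by
  intro r s
  have e2 : om4 2 = -1 := rfl
  have e0 : om4 0 = 1 := rfl
  have t2 : Lw (op5 2 (-1) 1 (-2) - oW 2 : Module.End (ZMod 5) (Fn5 (5 ^ r) (5 ^ s))) 1 :=
    two hl hn hf 2 (-1) 1 (-2) 12 12 1 (by norm_num) (by norm_num) (by norm_num)
      (by rw [e2]; norm_num) (by rw [e2]; norm_num)
  have t3 : Lw (op5 3 (-2) 1 (-3) - oW 2 : Module.End (ZMod 5) (Fn5 (5 ^ r) (5 ^ s))) 1 :=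
    two hl hn hf 3 (-2) 1 (-3) 16 8 2 (by norm_num) (by norm_num) (by norm_num)
      (by rw [e2]; norm_num) (by rw [e2]; norm_num)
  obtain ⟨nW, -, -, nD, nA3, nB3, nA, nB⟩ := hn r s
  refine ⟨?_, ?_, ?_, ?_⟩
  · intro a b c d ha hd
    obtain ⟨w, β, γ, m, h1, h2, h3⟩ := ex_nf a b c d ha hd
    have h7 := hf r s a b c d w β γ m ha hd h1 h2 h3
    obtain ⟨-, cB⟩ := lw_powk hl (by norm_num) nB γ
    obtain ⟨-, cD⟩ := lw_powk hl (by norm_num) nD m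
    obtain ⟨-, cA⟩ := lw_powk hl (by norm_num) nA β
    have h0 : Lw (oW w * oB ^ γ * oD ^ m * oA ^ β :
        Module.End (ZMod 5) (Fn5 (5 ^ r) (5 ^ s))) 0 :=
      lw_mul hl (lw_mul hl (lw_mul hl (nW w) cB (by norm_num : (0 : ℤ) + 0 = 0)) cD
        (by norm_num : (0 : ℤ) + 0 = 0)) cA (by norm_num)
    have := lw_add hl (lw_mono hl h7 (by norm_num : (0 : ℤ) ≤ 7)) h0
    rwa [sub_add_cancel] at this
  · have h7 := hf r s 4 (-1) 1 (-1) 0 6 19 2 (by norm_num) (by norm_num) (by norm_num)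
      (by rw [e0]; norm_num) (by rw [e0]; norm_num)
    rw [oW_zero] at h7
    obtain ⟨bD, -⟩ := lw_powk hl (by norm_num) nD 2
    obtain ⟨-, cB⟩ := lw_powk hl (by norm_num) nB 19
    obtain ⟨-, cA⟩ := lw_powk hl (by norm_num) nA 6
    have e19 : ((19 : ℕ) : ZMod 5) = -1 := by decide
    have e6 : ((6 : ℕ) : ZMod 5) = 1 := by decide
    have hB : Lw (oB ^ 19 - 1 + dY : Module.End (ZMod 5) (Fn5 (5 ^ r) (5 ^ s))) 2 := by
      have b1 := lw_binom hl nB 19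
      have eB : (1 + (oB - 1) : Module.End (ZMod 5) (Fn5 (5 ^ r) (5 ^ s))) = oB := by abel
      rw [eB, e19, neg1_smul, sub_neg_eq_add] at b1
      have b2 := lw_sub hl b1 (lw_mono hl nB3 (by norm_num : (2 : ℤ) ≤ 3))
      have e : (oB ^ 19 - 1 + dY : Module.End (ZMod 5) (Fn5 (5 ^ r) (5 ^ s))) =
          oB ^ 19 - 1 + (oB - 1) - (oB - 1 - dY) := by abel
      rw [e]
      exact b2
    have hA : Lw (oA ^ 6 - 1 - dX : Module.End (ZMod 5) (Fn5 (5 ^ r) (5 ^ s))) 2 := by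
      have b1 := lw_binom hl nA 6
      have eA : (1 + (oA - 1) : Module.End (ZMod 5) (Fn5 (5 ^ r) (5 ^ s))) = oA := by abel
      rw [eA, e6, one_smul] at b1
      have b2 := lw_add hl b1 (lw_mono hl nA3 (by norm_num : (2 : ℤ) ≤ 3))
      have e : (oA ^ 6 - 1 - dX : Module.End (ZMod 5) (Fn5 (5 ^ r) (5 ^ s))) =
          oA ^ 6 - 1 - (oA - 1) + (oA - 1 - dX) := by abel
      rw [e]
      exact b2
    have hY : Lw (1 - dY : Module.End (ZMod 5) (Fn5 (5 ^ r) (5 ^ s))) 0 :=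
      lw_sub hl (lw_one hl) (lw_mono hl (lw_dY hl) (by norm_num))
    rw [ring2 (op5 4 (-1) 1 (-1) : Module.End (ZMod 5) (Fn5 (5 ^ r) (5 ^ s))) (oA ^ 6)
      (oB ^ 19) (oD ^ 2) dX dY]
    refine lw_add hl (lw_mono hl h7 (by norm_num)) (lw_add hl ?_ ?_)
    · exact lw_mono hl (lw_mul hl (lw_mul hl cB bD (by norm_num : (0 : ℤ) + 4 = 4)) cA
        (by norm_num : (4 : ℤ) + 0 = 4)) (by norm_num)
    · rw [ring1]
      refine lw_sub hl (lw_add hl ?_ ?_) ?_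
      · exact lw_mul hl hB cA (by norm_num)
      · exact lw_mul hl hY hA (by norm_num)
      · exact lw_mul hl (lw_dY hl) (lw_dX hl) (by norm_num)
  · intro d F hF hd
    exact ⟨even_step hn t2 d F hF hd, even_step hn t3 d F hF hd⟩
  · intro d F hF hd
    exact ⟨odd_step hn t2 d F hF hd, odd_step hn t3 d F hF hd⟩

end Pool.Agent.Helper81.W5
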