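import Pool.Agent.Helper14.W5.StE

/-!
# Project W5, module BasOf: an integral family of symbols with determinant prime to five
-/

set_option autoImplicit false

namespace Pool.Agent.Helper81.W5

open Pool.Agent.Helper14.W5
open Pool.Agent.Helper14.CV
open Pool.Agent.Helper28.WK (SymP Tw evw Ok UIp TAp)

/-! ### transport of an integral symbol -/

/-- The potential `G(5^r p, q)`. -/
private def Gi (r : ℕ) (G : ℤ → ℤ → ℤ) : ℤ → ℤ → ℤ := fun p q => G (5 ^ r * p) q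

private lemma five_or (r : ℕ) {p q : ℤ} (h : p ≠ 0 ∨ q ≠ 0) : (5 ^ r * p ≠ 0 ∨ q ≠ 0) := by
  rcases h with h0 | h0
  · exact Or.inl (mul_ne_zero (by positivity) h0)
  · exact Or.inr h0

private lemma sym_Gi {r s : ℕ} {G : ℤ → ℤ → ℤ} (h : SymP 5 r s G) :
    SymP 5 0 (r + s) (Gi r G) := by
  refine ⟨?_, ?_⟩
  · intro k p q hk hpq
    have e := h.1 k (5 ^ r * p) q hk (five_or r hpq)
    have e1 : (5 : ℤ) ^ r * (k * p) = k * (5 ^ r * p) := by ring
    simp only [Gi]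
    rw [e1, e]
  · intro a b c d hdet _ hc
    obtain ⟨c', hc'⟩ := hc
    push_cast at hc'
    obtain ⟨k, hk⟩ := h.2 a (5 ^ r * b) (5 ^ s * c') d
      (by rw [← hdet, hc', pow_add]; ring) (by push_cast; exact Dvd.intro _ rfl)
      (by push_cast; exact Dvd.intro _ rfl)
    refine ⟨k, ?_⟩
    intro p q hpq
    have e := hk (5 ^ r * p) q (five_or r hpq)
    simp only [act, Gi] at e ⊢
    have e1 : (5 : ℤ) ^ r * (a * p + b * q) = a * (5 ^ r * p) + 5 ^ r * b * q := by ring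
    have e2 : c * p + d * q = 5 ^ s * c' * (5 ^ r * p) + d * q := by
      rw [hc', pow_add]
      ring
    rw [e1, e2, e]

private lemma Tl_Gi (l r : ℕ) (G : ℤ → ℤ → ℤ) : Tl l 1 (Gi r G) = Gi r (Tl l (5 ^ r) G) := by
  funext p q
  simp only [Tl, Gi]
  congr 1
  · congr 1
    ring
  · refine Finset.sum_congr rfl ?_
    intro j _
    congr 1
    ring

private lemma Gi_add (r : ℕ) (G H : ℤ → ℤ → ℤ) : Gi r (G + H) = Gi r G + Gi r H := rfl

private lemma Gi_sub (r : ℕ) (G H : ℤ → ℤ → ℤ) : Gi r (G - H) = Gi r G - Gi r H := rfl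

private lemma Gi_smul (r : ℕ) (n : ℤ) (G : ℤ → ℤ → ℤ) : Gi r (n • G) = n • Gi r G := rfl

private lemma Uo_Gi (r : ℕ) (G : ℤ → ℤ → ℤ) : Uo 1 (Gi r G) = Gi r (Uo (5 ^ r) G) := by
  unfold Uo
  rw [Gi_add, Tl_Gi, Tl_Gi]

private lemma Vo_Gi (r : ℕ) (G : ℤ → ℤ → ℤ) : Vo 1 (Gi r G) = Gi r (Vo (5 ^ r) G) := by
  unfold Vo
  rw [Gi_sub, Gi_sub, Gi_smul, Gi_smul, Tl_Gi, Tl_Gi, Tl_Gi]

private lemma Oo_Gi (r : ℕ) (G : ℤ → ℤ → ℤ) : Oo 1 (Gi r G) = Gi r (Oo (5 ^ r) G) := by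
  unfold Oo
  rw [Gi_sub, Gi_sub, Tl_Gi, Tl_Gi]

private lemma homog_Tl {G : ℤ → ℤ → ℤ} (l : ℕ) (hl : 0 < l) (m : ℤ) (h : Homog G) :
    Homog (Tl l m G) := by
  intro k p q hk hpq
  have hl0 : (l : ℤ) ≠ 0 := by exact_mod_cast hl.ne'
  simp only [Tl]
  congr 1
  · have e := h k (l * p) q hk (by
      rcases hpq with h0 | h0
      · exact Or.inl (mul_ne_zero hl0 h0)
      · exact Or.inr h0)
    rw [← e]
    congr 1
    ring
  · refine Finset.sum_congr rfl ?_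
    intro j _
    have e := h k (p + m * j * q) (l * q) hk (by
      by_cases hq : q = 0
      · left
        rcases hpq with h0 | h0
        · rw [hq, mul_zero, add_zero]
          exact h0
        · exact absurd hq h0
      · exact Or.inr (mul_ne_zero hl0 hq))
    rw [← e]
    congr 1
    · ring
    · ring

private lemma homog_Uo {G : ℤ → ℤ → ℤ} (m : ℤ) (h : Homog G) : Homog (Uo m G) := by
  have h2 := homog_Tl 2 (by norm_num) m (homog_Tl 2 (by norm_num) m h)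
  intro k p q hk hpq
  unfold Uo
  simp only [Pi.add_apply]
  rw [h k p q hk hpq, h2 k p q hk hpq]

private lemma homog_Vo {G : ℤ → ℤ → ℤ} (m : ℤ) (h : Homog G) : Homog (Vo m G) := by
  have h3 := homog_Tl 3 (by norm_num) m (homog_Tl 3 (by norm_num) m h)
  have h2 := homog_Tl 2 (by norm_num) m (homog_Tl 3 (by norm_num) m h)
  intro k p q hk hpq
  unfold Vo
  simp only [Pi.sub_apply, Pi.smul_apply]
  rw [h k p q hk hpq, h2 k p q hk hpq, h3 k p q hk hpq]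

private lemma homog_Oo {G : ℤ → ℤ → ℤ} (m : ℤ) (h : Homog G) : Homog (Oo m G) := by
  have h1 := homog_Tl 2 (by norm_num) m h
  have h2 := homog_Tl 2 (by norm_num) m (homog_Tl 2 (by norm_num) m h)
  intro k p q hk hpq
  unfold Oo
  simp only [Pi.sub_apply]
  rw [h k p q hk hpq, h1 k p q hk hpq, h2 k p q hk hpq]

private lemma iter_Gi (r : ℕ) (A B : (ℤ → ℤ → ℤ) → (ℤ → ℤ → ℤ))
    (hAB : ∀ G, A (Gi r G) = Gi r (B G)) (G : ℤ → ℤ → ℤ) (i : ℕ) :
    A^[i] (Gi r G) = Gi r (B^[i] G) := by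
  induction i with
  | zero => rfl
  | succ i ih => rw [Function.iterate_succ_apply', Function.iterate_succ_apply', ih, hAB]

private lemma iter_homog (B : (ℤ → ℤ → ℤ) → (ℤ → ℤ → ℤ))
    (hB : ∀ G, Homog G → Homog (B G)) {G : ℤ → ℤ → ℤ} (h : Homog G) (i : ℕ) :
    Homog (B^[i] G) := by
  induction i with
  | zero => exact h
  | succ i ih =>
    rw [Function.iterate_succ_apply']
    exact hB _ ih

private lemma ev_Gi {r s : ℕ} {G : ℤ → ℤ → ℤ} (hG : SymP 5 r s G) (c i j : ℕ) :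
    ev5 1 (Gi r G) c i j = ev5 (5 ^ r) G c i j := by
  unfold ev5
  rw [iter_Gi r (Vo 1) (Vo (5 ^ r)) (Vo_Gi r), iter_Gi r (Uo 1) (Uo (5 ^ r)) (Uo_Gi r),
    iter_Gi r (Oo 1) (Oo (5 ^ r)) (Oo_Gi r)]
  have hH : Homog ((Oo (5 ^ r))^[c] ((Uo (5 ^ r))^[i] ((Vo (5 ^ r))^[j] G))) :=
    iter_homog _ (fun _ h => homog_Oo _ h) (iter_homog _ (fun _ h => homog_Uo _ h)
      (iter_homog _ (fun _ h => homog_Vo _ h) hG.1 j) i) c
  have e := hH (5 ^ r) 1 0 (by positivity) (Or.inl one_ne_zero)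
  rw [mul_zero] at e
  simp only [Gi]
  rw [mul_zero, e]

/-! ### the determinant -/

private theorem unit_det {ι : Type} [Fintype ι] [DecidableEq ι] (k1 k2 : ι → ℕ)
    (hinj : ∀ t u, k1 t = k1 u → k2 t = k2 u → t = u) (M : Matrix ι ι ℤ)
    (hd : ∀ t, ((M t t : ℤ) : ZMod 5) ≠ 0)
    (hM : ∀ t u, ((M t u : ℤ) : ZMod 5) ≠ 0 → k1 u < k1 t ∨ (k1 u = k1 t ∧ k2 u ≤ k2 t)) :
    ((M.det : ℤ) : ZMod 5) ≠ 0 := by
  have : Fact (Nat.Prime 5) := ⟨Nat.prime_five⟩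
  intro h0
  have h1 : (M.map (fun x : ℤ => (x : ZMod 5))).det = 0 := by
    have := Int.cast_det (R := ZMod 5) M
    rw [h0] at this
    exact this.symm
  obtain ⟨v, hv, hz⟩ := Matrix.exists_vecMul_eq_zero_iff.2 h1
  have hne : (Finset.univ.filter fun t => v t ≠ 0).Nonempty := by
    by_contra hc
    rw [Finset.not_nonempty_iff_eq_empty, Finset.filter_eq_empty_iff] at hc
    apply hv
    funext t
    simpa using hc (Finset.mem_univ t)
  obtain ⟨t0, ht0, hmax⟩ := Finset.exists_max_image _ (fun t => (toLex (k1 t, k2 t) : ℕ ×ₗ ℕ)) hne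
  have hz0 := congrFun hz t0
  rw [Matrix.vecMul, dotProduct] at hz0
  rw [Finset.sum_eq_single t0] at hz0
  · simp only [Matrix.map_apply, Pi.zero_apply] at hz0
    rcases mul_eq_zero.1 hz0 with h | h
    · exact (Finset.mem_filter.1 ht0).2 h
    · exact hd t0 h
  · intro t _ htn
    by_cases hvt : v t = 0
    · rw [hvt, zero_mul]
    · by_cases hm : ((M t t0 : ℤ) : ZMod 5) = 0
      · simp only [Matrix.map_apply, hm, mul_zero]
      · exfalso
        have h2 := hmax t (Finset.mem_filter.2 ⟨Finset.mem_univ _, hvt⟩)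
        simp only [Prod.Lex.le_iff, ofLex_toLex] at h2
        have h3 := hM t t0 hm
        apply htn
        apply hinj
        · omega
        · omega
  · intro h
    exact absurd (Finset.mem_univ _) h

private theorem core (r s N n : ℕ) (I : Finset (ℕ × ℕ × ℕ))
    (hI : ∀ t ∈ I, t.1 ≤ 1 ∧ t.2.1 + 5 * t.2.2 + 3 * t.1 < 5 ^ r ∧
      t.2.1 + t.2.2 + t.1 < 5 ^ s) (hN : I.card = N)
    (hn : r + (s + 1) = n) (hTri : S5Tri) (hLif : S5Lif) :
    ∃ (G : Fin N → ℤ → ℤ → ℤ) (t : Fin N → ℕ × ℕ × ℕ), (∀ k, SymP 5 0 n (G k)) ∧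
      ¬ (5 : ℤ) ∣ Matrix.det (Matrix.of fun k l => ev5 1 (G k) (t l).1 (t l).2.1 (t l).2.2) := by
  have h1 : ∀ t : I, ∃ G : ℤ → ℤ → ℤ, SymP 5 0 n G ∧
      (((ev5 1 G t.1.1 t.1.2.1 t.1.2.2 : ℤ) : ZMod 5) ≠ 0) ∧
      ∀ c i j, c ≤ 1 → (((ev5 1 G c i j : ℤ) : ZMod 5) ≠ 0 →
        (2 * i + 6 * j + 4 * c < 2 * t.1.2.1 + 6 * t.1.2.2 + 4 * t.1.1 ∨
          (2 * i + 6 * j + 4 * c = 2 * t.1.2.1 + 6 * t.1.2.2 + 4 * t.1.1 ∧
            i + j + c ≤ t.1.2.1 + t.1.2.2 + t.1.1))) := by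
    intro t
    obtain ⟨hc, ha, hb⟩ := hI t.1 t.2
    obtain ⟨g, hg, hg1, hg2⟩ := hTri r s t.1.1 t.1.2.1 t.1.2.2 hc ha hb
    obtain ⟨G, hG, hGe⟩ := hLif r s g hg
    refine ⟨Gi r G, hn ▸ sym_Gi hG, ?_, ?_⟩
    · rw [ev_Gi hG, hGe]
      exact hg1
    · intro c i j hc1 hij
      apply hg2 c i j hc1
      rw [← hGe, ← ev_Gi hG]
      exact hij
  choose G hS hd hM using h1
  let M : Matrix I I ℤ := Matrix.of fun t u => ev5 1 (G t) u.1.1 u.1.2.1 u.1.2.2
  have hdet : ((M.det : ℤ) : ZMod 5) ≠ 0 := by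
    refine unit_det (fun t : I => 2 * t.1.2.1 + 6 * t.1.2.2 + 4 * t.1.1)
      (fun t : I => t.1.2.1 + t.1.2.2 + t.1.1) ?_ M
      (fun t => hd t) (fun t u htu => hM t _ _ _ (hI u.1 u.2).1 htu)
    intro t u h2 h3
    have ht := (hI t.1 t.2).1
    have hu := (hI u.1 u.2).1
    apply Subtype.ext
    apply Prod.ext
    · omega
    · apply Prod.ext
      · omega
      · omega
  let e : Fin N ≃ I := (I.equivFinOfCardEq hN).symm
  refine ⟨fun k => G (e k), fun l => (e l).1, fun k => hS (e k), ?_⟩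
  have h2 : (Matrix.of fun k l => ev5 1 (G (e k)) ((e l).1).1 ((e l).1).2.1 ((e l).1).2.2) =
      M.submatrix e e := rfl
  rw [h2, Matrix.det_submatrix_equiv_self]
  intro h3
  exact hdet ((ZMod.intCast_zmod_eq_zero_iff_dvd _ 5).2 (by exact_mod_cast h3))

theorem hBasOf : S5BasOf := by
  intro hTri hLif hCnt n hn
  rcases Nat.even_or_odd' n with ⟨k, hk | hk⟩
  · subst hk
    refine core k (k - 1) _ _ _ ?_ (hCnt.1 k (by omega)) (by omega) hTri hLif
    intro t ht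
    have h := Finset.mem_filter.1 ht
    have h0 := Finset.mem_range.1 (Finset.mem_product.1 h.1).1
    exact ⟨by omega, h.2.1, h.2.2⟩
  · subst hk
    refine core k k _ _ _ ?_ (hCnt.2 k (by omega)) (by omega) hTri hLif
    intro t ht
    have h := Finset.mem_filter.1 ht
    have h0 := Finset.mem_range.1 (Finset.mem_product.1 h.1).1
    exact ⟨by omega, h.2.1, h.2.2⟩

end Pool.Agent.Helper81.W5
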